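import Mathlib

/-!
# Homeomorphisms of odd dimensional Euclidean spaces with all full orbits dense

Definitions and the statements of the modules (each `*_Stmt` is a proposition proved in its own
file).
-/

open Set Metric Topology

namespace Pool.Agent.MinHomeo

/-! ## The abstract scheme -/

section Abstract

variable {M : Type} [MetricSpace M]

/-- Property A (the classical step): every map of the class can be approximated, together with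
its inverse, by a map of the class all of whose forward and backward half orbits meet a given
nonempty open set in bounded time. -/
def PropA (Rc : Set (M ≃ₜ M)) : Prop :=
  ∀ f ∈ Rc, ∀ U : Set M, IsOpen U → U.Nonempty → ∀ ε : ℝ, 0 < ε →
    ∃ g ∈ Rc, ∃ N : ℕ,
      (∀ x, dist (g x) (f x) < ε) ∧ (∀ x, dist (g.symm x) (f.symm x) < ε) ∧
      (∀ x, ∃ a ≤ N, (⇑g)^[a] x ∈ U) ∧ (∀ x, ∃ a ≤ N, (⇑g.symm)^[a] x ∈ U)

/-- Property B (the freezing step). -/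
def PropB (Rc : Set (M ≃ₜ M)) (e : M) : Prop :=
  ∀ f ∈ Rc, ∀ O : Set M, IsOpen O → IsPreconnected O → e ∈ O → f e ∈ O →
    ∀ (N : ℕ) (ε η : ℝ), 0 < ε → 0 < η →
    ∃ f' ∈ Rc, ∃ W V O' : Set M,
      IsClosed W ∧ W ⊆ O ∧ IsOpen V ∧ IsPreconnected V ∧ V ⊆ W ∧ e ∈ V ∧ f e ∈ V ∧
      (∀ m, 2 ≤ m → m ≤ N → Disjoint W ((⇑f)^[m] '' W)) ∧
      (∀ x, f x ∉ W → dist (f' x) (f x) < ε) ∧ (∀ x, f x ∈ W → f' x ∈ W) ∧
      (∀ x, x ∉ W → dist (f'.symm x) (f.symm x) < ε) ∧ (∀ x, x ∈ W → f (f'.symm x) ∈ W) ∧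
      IsOpen O' ∧ IsPreconnected O' ∧ e ∈ O' ∧ f' e ∈ O' ∧ O' ⊆ W ∧ O' ⊆ ball e η

/-- A constraint: points of `K` have to hit `U` in at most `N` steps, forward avoiding `F` before
or backward avoiding `B` before. -/
structure Cstr (M : Type) where
  K : Set M
  U : Set M
  F : Set M
  B : Set M
  N : ℕ

/-- The homeomorphism `f` satisfies the constraint `c`. -/
def Good (f : M ≃ₜ M) (c : Cstr M) : Prop :=
  ∀ x ∈ c.K, (∃ a ≤ c.N, (⇑f)^[a] x ∈ c.U ∧ ∀ j < a, (⇑f)^[j] x ∉ c.F) ∨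
    (∃ a ≤ c.N, (⇑f.symm)^[a] x ∈ c.U ∧ ∀ j < a, (⇑f.symm)^[j] x ∉ c.B)

/-- Stages of the construction. -/
structure Stage (Rc : Set (M ≃ₜ M)) (e : M) where
  f : M ≃ₜ M
  O : Set M
  κ : ℝ
  cs : List (Cstr M)
  hf : f ∈ Rc
  hO : IsOpen O
  hOc : IsPreconnected O
  heO : e ∈ O
  hfeO : f e ∈ O
  hκ : 0 < κ
  hOκ : O ⊆ ball e κ
  hOκ' : ∀ x, f x ∈ O → x ∈ ball e κ
  hc : ∀ c ∈ cs, IsCompact c.K ∧ IsOpen c.U ∧ IsClosed c.F ∧ IsClosed c.B ∧ Good f c ∧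
    ball e (2 * κ) ⊆ c.F ∧ ball e (2 * κ) ⊆ c.B

end Abstract

/-- STAB: the constraints are stable. -/
def Stab_Stmt : Prop :=
  ∀ (M : Type) [MetricSpace M] (f : M ≃ₜ M) (c : Cstr M),
    IsCompact c.K → IsOpen c.U → IsClosed c.F → IsClosed c.B → Good f c →
    ∃ θ : ℝ, 0 < θ ∧ ∀ g : M ≃ₜ M, (∀ x, x ∉ c.F → dist (g x) (f x) < θ) →
      (∀ x, x ∉ c.B → dist (g.symm x) (f.symm x) < θ) → Good g c

/-- STEP: one step of the construction. -/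
def Step_Stmt : Prop :=
  ∀ (M : Type) [MetricSpace M] [CompactSpace M] (Rc : Set (M ≃ₜ M)) (e : M),
    (∀ f ∈ Rc, f.symm ∈ Rc) → PropA Rc → PropB Rc e →
    ∀ (s : Stage Rc e) (U : Set M), IsOpen U → U.Nonempty →
    ∃ (s' : Stage Rc e) (c : Cstr M), s'.cs = c :: s.cs ∧ c.K = (ball e (2 * s.κ))ᶜ ∧ c.U = U ∧
      s'.κ ≤ s.κ / 2 ∧ (∀ x, dist (s'.f x) (s.f x) ≤ 6 * s.κ) ∧
      (∀ x, dist (s'.f.symm x) (s.f.symm x) ≤ 6 * s.κ)

/-- FROZEN: the limit homeomorphism. -/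
def Frozen_Stmt : Prop :=
  ∀ (M : Type) [MetricSpace M] [CompactSpace M] [PreconnectedSpace M] (Rc : Set (M ≃ₜ M)) (e : M),
    Rc.Nonempty → (∀ f ∈ Rc, f.symm ∈ Rc) → PropA Rc → PropB Rc e →
    ∃ f : M ≃ₜ M, f e = e ∧ ∀ x, x ≠ e → ∀ U : Set M, IsOpen U → U.Nonempty →
      ∃ k : ℕ, (⇑f)^[k] x ∈ U ∨ (⇑f.symm)^[k] x ∈ U

/-! ## Circle actions with a chart -/

/-- An isometric free circle action `R` on `M` together with a chart `Φ : X × ℝ → M` which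
parametrises the complement of a thin set by (base point, angle). -/
structure RotChart (X : Type) [NormedAddCommGroup X] [NormedSpace ℝ X] (M : Type)
    [MetricSpace M] where
  R : ℝ → M ≃ₜ M
  R_add : ∀ s t x, R (s + t) x = R s (R t x)
  R_one : ∀ x, R 1 x = x
  R_isom : ∀ t x y, dist (R t x) (R t y) = dist x y
  R_cont : Continuous fun p : ℝ × M => R p.1 p.2
  Φ : X × ℝ → M
  Φ_cont : Continuous Φ
  Φ_open : IsOpenMap Φ
  Φ_eq : ∀ x θ x' θ', Φ (x, θ) = Φ (x', θ') ↔ x = x' ∧ ∃ k : ℤ, θ' = θ + k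
  R_Φ : ∀ t x θ, R t (Φ (x, θ)) = Φ (x, θ + t)
  dense : Dense (range Φ)
  trans : ∀ p : M, ∃ u : M ≃ₜ M, (∀ t x, u (R t x) = R t (u x)) ∧ u (Φ (0, 0)) = p
  conn : ∀ O : Set M, IsOpen O → IsPreconnected O → IsPreconnected (O ∩ range Φ)

section Chart

variable {X : Type} [NormedAddCommGroup X] [NormedSpace ℝ X] {M : Type} [MetricSpace M]

/-- The class of conjugates of irrational rotations. -/
def RotChart.rot (C : RotChart X M) : Set (M ≃ₜ M) :=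
  {f | ∃ (h : M ≃ₜ M) (α : ℝ), Irrational α ∧ ∀ x, f x = h (C.R α (h.symm x))}

/-- TR: transport of equivariant maps of `X × ℝ` with bounded support. -/
def Transport_Stmt (C : RotChart X M) : Prop :=
  ∀ T : X × ℝ → X × ℝ, Continuous T → Function.Bijective T →
    (∀ x θ, T (x, θ + 1) = T (x, θ) + (0, 1)) → (∃ r : ℝ, ∀ y : X × ℝ, r ≤ ‖y.1‖ → T y = y) →
    ∃ S : M ≃ₜ M, (∀ y, S (C.Φ y) = C.Φ (T y)) ∧ ∀ m, m ∉ range C.Φ → S m = m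

/-- MOVE: inside an open preconnected set contained in the range of the chart, each point can be
moved to each other point by a homeomorphism supported in the set. -/
def Move_Stmt (C : RotChart X M) : Prop :=
  ∀ S : Set M, IsOpen S → IsPreconnected S → S ⊆ range C.Φ → ∀ p ∈ S, ∀ q ∈ S,
    ∃ Ψ : M ≃ₜ M, Ψ p = q ∧ ∀ x, x ∉ S → Ψ x = x

/-- AQ: the conjugating homeomorphisms of the classical step. -/
def AQ_Stmt (C : RotChart X M) : Prop :=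
  ∀ (v : ℝ → X) (ρ r₀ : ℝ), 0 < ρ → 0 < r₀ → Continuous v → (∀ s, v (s + 1) = v s) → v 0 = 0 →
    (∀ s, ‖v s‖ ≤ ρ) → ∀ q : ℕ, 1 ≤ q →
    ∃ A : M ≃ₜ M,
      (∀ x θ, ‖x‖ ≤ r₀ → A (C.Φ (x, θ)) = C.Φ (x + v (q * θ), θ)) ∧
      (∀ x θ, (∃ k : ℤ, (q : ℝ) * θ = k) → A (C.Φ (x, θ)) = C.Φ (x, θ)) ∧
      (∀ m, m ∉ range C.Φ → A m = m) ∧
      (∀ t : ℝ, (∃ k : ℤ, (q : ℝ) * t = k) → ∀ m, A (C.R t m) = C.R t (A m))

/-- HIT: a homeomorphism commuting with `R (1/Q)` which makes every circle visit `V`. -/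
def Hit_Stmt (C : RotChart X M) : Prop :=
  ∀ V : Set M, IsOpen V → V.Nonempty → ∀ Q : ℕ, 1 ≤ Q →
    ∃ G : M ≃ₜ M, (∀ (j : ℤ) (m : M), G (C.R ((j : ℝ) / Q) m) = C.R ((j : ℝ) / Q) (G m)) ∧
      ∀ m, ∃ t, G (C.R t m) ∈ V

/-- PATH: lifting connectedness to `X × ℝ`. -/
def Path_Stmt (C : RotChart X M) : Prop :=
  ∀ (O : Set M) (α : ℝ), IsOpen O → IsPreconnected O → C.Φ (0, 0) ∈ O → C.Φ (0, α) ∈ O →
    ∃ k : ℤ, JoinedIn (C.Φ ⁻¹' O) (0, 0) (0, α + k)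

/-- THICK: disjointness of thickenings. -/
def Thick_Stmt (C : RotChart X M) : Prop :=
  ∀ (A A' : Set (X × ℝ)) (t : ℝ), IsCompact A → IsCompact A' →
    Disjoint (C.Φ '' A) (C.R t '' (C.Φ '' A')) →
    ∃ r₀ : ℝ, 0 < r₀ ∧ ∀ r, 0 < r → r ≤ r₀ →
      Disjoint (C.Φ '' (cthickening r A)) (C.R t '' (C.Φ '' (cthickening r A')))

end Chart

/-- CURVE: a closed curve almost filling a ball. -/
def Curve_Stmt (X : Type) [NormedAddCommGroup X] [NormedSpace ℝ X] : Prop :=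
  ∀ ρ ε : ℝ, 0 < ρ → 0 < ε → ∃ v : ℝ → X, Continuous v ∧ (∀ s, v (s + 1) = v s) ∧ v 0 = 0 ∧
    (∀ s, ‖v s‖ ≤ ρ) ∧ ∀ x, ‖x‖ ≤ ρ → ∃ s, ‖v s - x‖ < ε

/-- GP: polygonal paths in general position with respect to countably many vertical
translations. -/
def GP_Stmt (X : Type) [NormedAddCommGroup X] [NormedSpace ℝ X] : Prop :=
  ∀ (P : Set (X × ℝ)) (a : ℝ) (Λ : Set ℝ) (δ : ℝ), IsOpen P → Λ.Countable → a ≠ 0 → 0 < δ →
    JoinedIn P (0, 0) (0, a) →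
    ∃ (T : ℕ) (y : ℕ → X × ℝ), 3 ≤ T ∧ y 0 = (0, 0) ∧ y T = (0, a) ∧
      (∀ i < T, segment ℝ (y i) (y (i + 1)) ⊆ P) ∧
      (∀ i < T, dist (y i) (y (i + 1)) < δ) ∧
      (∀ l ∈ Λ, l ≠ 0 → l ≠ a → l ≠ -a → ∀ i < T, ∀ j < T,
        ∀ p ∈ segment ℝ (y i) (y (i + 1)), ∀ p' ∈ segment ℝ (y j) (y (j + 1)),
          p ≠ p' + (0, l)) ∧
      (∀ i < T, ∀ j < T, 1 ≤ j →
        ∀ p ∈ segment ℝ (y i) (y (i + 1)), ∀ p' ∈ segment ℝ (y j) (y (j + 1)),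
          p ≠ p' + (0, a)) ∧
      (∀ i < T, 1 ≤ i → ((0 : X), (0 : ℝ)) ∉ segment ℝ (y i) (y (i + 1)))

/-- ALG: the algebra of the freezing step. -/
def Alg_Stmt : Prop :=
  ∀ (M : Type) [MetricSpace M] (R : M ≃ₜ M) (L : ℕ) (S : Set M) (Ψ : ℕ → M ≃ₜ M),
    (∀ m, 1 ≤ m → m ≤ L → Disjoint S ((⇑R)^[m] '' S)) →
    (∀ g x, x ∉ S → Ψ g x = x) →
    ∃ k : M ≃ₜ M,
      (∀ x, (∀ m < L, x ∉ (⇑R)^[m] '' S) → k x = x) ∧
      (∀ z : ℕ → M, (∀ g, 1 ≤ g → g ≤ L → Ψ g (z (g + 1)) = z g) → z (L + 1) ∈ S →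
        k (z (L + 1)) = z 1) ∧
      (∀ x ∈ S, k (R (k.symm (R.symm x))) ∈ S) ∧
      (∀ x, x ∉ S → k (R (k.symm (R.symm x))) = x ∨ ∃ m, 1 ≤ m ∧ m ≤ L ∧ ∃ w ∈ S,
        x = (⇑R)^[m] w ∧ k (R (k.symm (R.symm x))) = (⇑R)^[m] ((Ψ m).symm w)) ∧
      (∀ x ∈ S, R (k (R.symm (k.symm x))) ∈ S) ∧
      (∀ x, x ∉ S → R (k (R.symm (k.symm x))) = x ∨ ∃ m, 1 ≤ m ∧ m ≤ L ∧ ∃ w ∈ S,
        x = (⇑R)^[m] w ∧ R (k (R.symm (k.symm x))) = (⇑R)^[m] (Ψ m w))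

/-! ## The sphere -/

section Sphere

/-- The ambient space `ℂ × F` with its Hilbert norm. -/
abbrev Amb (F : Type) [NormedAddCommGroup F] [InnerProductSpace ℂ F] : Type := WithLp 2 (ℂ × F)

/-- The unit sphere of `ℂ × F`. -/
abbrev Sph (F : Type) [NormedAddCommGroup F] [InnerProductSpace ℂ F] : Type :=
  sphere (0 : Amb F) 1

variable (F : Type) [NormedAddCommGroup F] [InnerProductSpace ℂ F]

/-- SPHCONN: removing the codimension two subsphere `z = 0` does not disconnect open sets. -/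
def SphConn_Stmt : Prop :=
  ∀ O : Set (Sph F), IsOpen O → IsPreconnected O →
    IsPreconnected (O ∩ {p : Sph F | (p : Amb F).fst ≠ 0})

/-- SPHTRANS: the unitary group is transitive on the sphere. -/
def SphTrans_Stmt : Prop :=
  ∀ p q : Sph F, ∃ u : Amb F ≃ₗᵢ[ℂ] Amb F, u (p : Amb F) = (q : Amb F)

/-- SPHCHART: the Hopf rotations and their chart. -/
def SphChart_Stmt : Prop := Nonempty (RotChart F (Sph F))

end Sphere

/-- LAST: from the sphere to Euclidean space. -/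
def Last_Stmt : Prop :=
  ∀ m : ℕ, 1 ≤ m →
    (∃ (e : Sph (EuclideanSpace ℂ (Fin m)))
        (f : Sph (EuclideanSpace ℂ (Fin m)) ≃ₜ Sph (EuclideanSpace ℂ (Fin m))), f e = e ∧
      ∀ x, x ≠ e → ∀ U : Set (Sph (EuclideanSpace ℂ (Fin m))), IsOpen U → U.Nonempty →
        ∃ k : ℕ, (⇑f)^[k] x ∈ U ∨ (⇑f.symm)^[k] x ∈ U) →
    ∃ f : EuclideanSpace ℝ (Fin (2 * m + 1)) ≃ₜ EuclideanSpace ℝ (Fin (2 * m + 1)),
      ∀ x, Dense (range fun k : ℤ => (f ^ k) x)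

end Pool.Agent.MinHomeo
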