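import Pool.Agent.Lib_helper57.MinHomeo.Defs

open Set Metric Topology

namespace Pool.Agent.MinHomeo

variable {X M : Type} [NormedAddCommGroup X] [NormedSpace ℝ X] [MetricSpace M]

namespace RotChart

theorem R_zero (C : RotChart X M) (x : M) : C.R 0 x = x := by
  have h := C.R_add 0 0 x
  rw [add_zero] at h
  exact ((C.R 0).injective h).symm

theorem R_neg_apply (C : RotChart X M) (t : ℝ) (x : M) : C.R (-t) (C.R t x) = x := by
  rw [← C.R_add, neg_add_cancel, C.R_zero]

theorem R_apply_neg (C : RotChart X M) (t : ℝ) (x : M) : C.R t (C.R (-t) x) = x := by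
  rw [← C.R_add, add_neg_cancel, C.R_zero]

theorem R_symm (C : RotChart X M) (t : ℝ) (x : M) : (C.R t).symm x = C.R (-t) x := by
  rw [Homeomorph.symm_apply_eq, C.R_apply_neg]

theorem R_iter (C : RotChart X M) (α : ℝ) (m : ℕ) (x : M) :
    (⇑(C.R α))^[m] x = C.R (m * α) x := by
  induction m generalizing x with
  | zero => simp [C.R_zero]
  | succ n ih =>
    rw [Function.iterate_succ_apply, ih, ← C.R_add]
    congr 2
    push_cast
    ring

theorem R_nat (C : RotChart X M) (n : ℕ) (x : M) : C.R n x = x := by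
  induction n with
  | zero => simp [C.R_zero]
  | succ n ih =>
    push_cast
    rw [C.R_add, C.R_one, ih]

theorem R_int (C : RotChart X M) (k : ℤ) (x : M) : C.R k x = x := by
  obtain ⟨n, rfl | rfl⟩ := k.eq_nat_or_neg
  · simpa using C.R_nat n x
  · have h := C.R_neg_apply n x
    rw [C.R_nat] at h
    simpa using h

theorem R_add_int (C : RotChart X M) (t : ℝ) (k : ℤ) (x : M) : C.R (t + k) x = C.R t x := by
  rw [C.R_add, C.R_int]

theorem Φ_int (C : RotChart X M) (x : X) (θ : ℝ) (k : ℤ) : C.Φ (x, θ + k) = C.Φ (x, θ) :=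
  ((C.Φ_eq x θ x (θ + k)).2 ⟨rfl, k, rfl⟩).symm

theorem R_Φ' (C : RotChart X M) (t : ℝ) (y : X × ℝ) : C.R t (C.Φ y) = C.Φ (y + (0, t)) := by
  obtain ⟨x, θ⟩ := y
  rw [C.R_Φ]
  simp

/-- The class of conjugates of irrational rotations is closed under inversion. -/
theorem rot_symm (C : RotChart X M) : ∀ f ∈ C.rot, f.symm ∈ C.rot := by
  rintro f ⟨h, α, hα, hf⟩
  refine ⟨h, -α, hα.neg, fun x => ?_⟩
  rw [Homeomorph.symm_apply_eq, hf]
  simp [C.R_apply_neg]

theorem rot_nonempty (C : RotChart X M) : C.rot.Nonempty :=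
  ⟨C.R (Real.sqrt 2), Homeomorph.refl M, Real.sqrt 2, irrational_sqrt_two, fun x => rfl⟩

end RotChart

end Pool.Agent.MinHomeo
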