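import Pool.Agent.Lib_helper57.MinHomeo.Defs

open Set Metric Topology

namespace Pool.Agent.MinHomeo

section

variable {M : Type} [MetricSpace M]

/-- `algPhi L Ψ i = Ψ (L - i + 1) ∘ ⋯ ∘ Ψ L` (the last `i` maps). -/
def algPhi (L : ℕ) (Ψ : ℕ → M ≃ₜ M) : ℕ → M ≃ₜ M
  | 0 => Homeomorph.refl M
  | i + 1 => (algPhi L Ψ i).trans (Ψ (L - i))

theorem algPhi_step (L : ℕ) (Ψ : ℕ → M ≃ₜ M) (m : ℕ) (hm : m < L) (x : M) :
    algPhi L Ψ (L - m) x = Ψ (m + 1) (algPhi L Ψ (L - (m + 1)) x) := by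
  have h1 : L - m = (L - (m + 1)) + 1 := by omega
  have h2 : L - (L - (m + 1)) = m + 1 := by omega
  rw [h1]
  simp only [algPhi, Homeomorph.trans_apply]
  rw [h2]

theorem algPhi_supp (L : ℕ) (Ψ : ℕ → M ≃ₜ M) (S : Set M) (h : ∀ g x, x ∉ S → Ψ g x = x)
    (i : ℕ) (x : M) (hx : x ∉ S) : algPhi L Ψ i x = x := by
  induction i with
  | zero => rfl
  | succ n ih =>
    simp only [algPhi, Homeomorph.trans_apply]
    rw [ih, h _ _ hx]

theorem alg_mem (f : M ≃ₜ M) (S : Set M) (h : ∀ x, x ∉ S → f x = x) (x : M) (hx : x ∈ S) :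
    f x ∈ S := by
  by_contra hc
  exact hc (by rw [f.injective (h _ hc)]; exact hx)

theorem alg_symm_supp (f : M ≃ₜ M) (S : Set M) (h : ∀ x, x ∉ S → f x = x) (x : M)
    (hx : x ∉ S) : f.symm x = x := by
  rw [Homeomorph.symm_apply_eq, h x hx]

/-- The iterates as homeomorphisms. -/
theorem alg_pow (R : M ≃ₜ M) (m : ℕ) (x : M) : (R ^ m) x = (⇑R)^[m] x := by
  induction m generalizing x with
  | zero => rfl
  | succ n ih => rw [pow_succ, Homeomorph.mul_apply, ih, Function.iterate_succ_apply]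

/-- The product of the conjugated maps. -/
def algK (R : M ≃ₜ M) (φ : ℕ → M ≃ₜ M) : ℕ → M ≃ₜ M
  | 0 => 1
  | n + 1 => algK R φ n * (R ^ n * φ n * (R ^ n)⁻¹)

theorem alg_conj (R : M ≃ₜ M) (φ : M ≃ₜ M) (m : ℕ) (w : M) :
    (R ^ m * φ * (R ^ m)⁻¹) ((⇑R)^[m] w) = (⇑R)^[m] (φ w) := by
  have h : (R ^ m).symm ((⇑R)^[m] w) = w := by
    rw [Homeomorph.symm_apply_eq, alg_pow]
  rw [Homeomorph.mul_apply, Homeomorph.mul_apply, Homeomorph.inv_apply, h, alg_pow]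

theorem alg_conj_supp (R : M ≃ₜ M) (φ : M ≃ₜ M) (S : Set M) (h : ∀ x, x ∉ S → φ x = x)
    (m : ℕ) (x : M) (hx : x ∉ (⇑R)^[m] '' S) : (R ^ m * φ * (R ^ m)⁻¹) x = x := by
  rw [Homeomorph.mul_apply, Homeomorph.mul_apply, Homeomorph.inv_apply, h,
    Homeomorph.apply_symm_apply]
  intro hc
  exact hx ⟨_, hc, by rw [← alg_pow, Homeomorph.apply_symm_apply]⟩

theorem algK_spec (R : M ≃ₜ M) (L : ℕ) (S : Set M) (φ : ℕ → M ≃ₜ M)
    (hdis : ∀ i j, i < j → j ≤ L → Disjoint ((⇑R)^[i] '' S) ((⇑R)^[j] '' S))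
    (hφ : ∀ m x, x ∉ S → φ m x = x) (n : ℕ) (hn : n ≤ L) :
    (∀ x, (∀ m < n, x ∉ (⇑R)^[m] '' S) → algK R φ n x = x) ∧
    (∀ m < n, ∀ w ∈ S, algK R φ n ((⇑R)^[m] w) = (⇑R)^[m] (φ m w)) := by
  induction n with
  | zero => exact ⟨fun x _ => rfl, fun m hm => absurd hm (Nat.not_lt_zero m)⟩
  | succ n ih =>
    obtain ⟨ih1, ih2⟩ := ih (by omega)
    refine ⟨fun x hx => ?_, fun m hm w hw => ?_⟩
    · simp only [algK]
      rw [Homeomorph.mul_apply, alg_conj_supp R (φ n) S (hφ n) n x (hx n (by omega))]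
      exact ih1 x fun m hm => hx m (by omega)
    · simp only [algK]
      rw [Homeomorph.mul_apply]
      rcases Nat.lt_succ_iff_lt_or_eq.1 hm with h | rfl
      · rw [alg_conj_supp R (φ n) S (hφ n) n _ ?_]
        · exact ih2 m h w hw
        · intro hc
          exact Set.disjoint_left.1 (hdis m n h (by omega)) ⟨w, hw, rfl⟩ hc
      · rw [alg_conj]
        refine ih1 _ fun i hi hc => ?_
        exact Set.disjoint_left.1 (hdis i m hi (by omega)) hc
          ⟨φ m w, alg_mem (φ m) S (hφ m) w hw, rfl⟩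

end

theorem alg : Alg_Stmt := by
  intro M _ R L S Ψ hd hΨ
  have hdis : ∀ i j, i < j → j ≤ L → Disjoint ((⇑R)^[i] '' S) ((⇑R)^[j] '' S) := by
    intro i j hij hj
    rw [Set.disjoint_left]
    rintro _ ⟨w, hw, rfl⟩ ⟨w', hw', he⟩
    obtain ⟨d, rfl⟩ := Nat.exists_eq_add_of_lt hij
    have h1 : (⇑R)^[i + d + 1] w' = (⇑R)^[i] ((⇑R)^[d + 1] w') := by
      rw [show i + d + 1 = i + (d + 1) by omega, Function.iterate_add_apply]
    rw [h1] at he
    have h2 := (R.injective.iterate i) he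
    exact Set.disjoint_left.1 (hd (d + 1) (by omega) (by omega)) hw ⟨w', hw', h2⟩
  set φ : ℕ → M ≃ₜ M := fun m => algPhi L Ψ (L - m) with hφ_def
  have hφ : ∀ m x, x ∉ S → φ m x = x := fun m x hx => algPhi_supp L Ψ S hΨ _ x hx
  have hφS : ∀ m, ∀ w ∈ S, φ m w ∈ S := fun m w hw => alg_mem (φ m) S (hφ m) w hw
  have hφsS : ∀ m, ∀ w ∈ S, (φ m).symm w ∈ S := fun m w hw =>
    alg_mem (φ m).symm S (fun x hx => alg_symm_supp (φ m) S (hφ m) x hx) w hw
  have hφstep : ∀ m < L, ∀ x, φ m x = Ψ (m + 1) (φ (m + 1) x) := fun m hm x =>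
    algPhi_step L Ψ m hm x
  have hφL : ∀ x, φ L x = x := by
    intro x
    simp only [hφ_def, Nat.sub_self]
    rfl
  obtain ⟨hk1, hk2⟩ := algK_spec R L S φ hdis hφ L le_rfl
  set k := algK R φ L with hk_def
  have hkm : ∀ m ≤ L, ∀ w ∈ S, k ((⇑R)^[m] w) = (⇑R)^[m] (φ m w) := by
    intro m hm w hw
    rcases hm.lt_or_eq with h | rfl
    · exact hk2 m h w hw
    · rw [hφL]
      exact hk1 _ fun i hi hc =>
        Set.disjoint_left.1 (hdis i m hi le_rfl) hc ⟨w, hw, rfl⟩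
  have hksm : ∀ m ≤ L, ∀ w ∈ S, k.symm ((⇑R)^[m] w) = (⇑R)^[m] ((φ m).symm w) := by
    intro m hm w hw
    rw [Homeomorph.symm_apply_eq, hkm m hm _ (hφsS m w hw), Homeomorph.apply_symm_apply]
  have hks1 : ∀ x, (∀ m < L, x ∉ (⇑R)^[m] '' S) → k.symm x = x := by
    intro x hx
    rw [Homeomorph.symm_apply_eq, hk1 x hx]
  have hpre : ∀ x, (∀ m, 1 ≤ m → m ≤ L → x ∉ (⇑R)^[m] '' S) →
      ∀ m < L, R.symm x ∉ (⇑R)^[m] '' S := by
    rintro x hx m hm ⟨w, hw, he⟩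
    refine hx (m + 1) (by omega) (by omega) ⟨w, hw, ?_⟩
    rw [Function.iterate_succ_apply', he, R.apply_symm_apply]
  have hRS : ∀ m, ∀ w : M, R.symm ((⇑R)^[m + 1] w) = (⇑R)^[m] w := by
    intro m w
    rw [Homeomorph.symm_apply_eq, Function.iterate_succ_apply']
  have hSnot : ∀ x ∈ S, ∀ m, 1 ≤ m → m ≤ L → x ∉ (⇑R)^[m] '' S := fun x hx m hm hm' =>
    Set.disjoint_left.1 (hd m hm hm') hx
  have hk0 : ∀ w ∈ S, k w = φ 0 w := fun w hw => hkm 0 (Nat.zero_le _) w hw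
  have hks0 : ∀ w ∈ S, k.symm w = (φ 0).symm w := fun w hw => hksm 0 (Nat.zero_le _) w hw
  refine ⟨k, hk1, ?_, ?_, ?_, ?_, ?_⟩
  · intro z hz hzS
    rw [hk0 _ hzS]
    have h : ∀ i ≤ L, φ (L - i) (z (L + 1)) = z (L - i + 1) := by
      intro i
      induction i with
      | zero => intro _; rw [Nat.sub_zero, hφL]
      | succ n ih =>
        intro hn
        rw [hφstep (L - (n + 1)) (by omega), show L - (n + 1) + 1 = L - n by omega,
          ih (by omega)]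
        exact hz (L - n) (by omega) (by omega)
    have h2 := h L le_rfl
    rw [Nat.sub_self] at h2
    exact h2
  · intro x hx
    rw [hks1 _ (hpre x (hSnot x hx)), R.apply_symm_apply, hk0 x hx]
    exact hφS 0 x hx
  · intro x hx
    by_cases hex : ∃ m, 1 ≤ m ∧ m ≤ L ∧ x ∈ (⇑R)^[m] '' S
    · obtain ⟨m, hm, hm', w, hw, rfl⟩ := hex
      right
      refine ⟨m, hm, hm', w, hw, rfl, ?_⟩
      obtain ⟨i, rfl⟩ : ∃ i, m = i + 1 := ⟨m - 1, by omega⟩
      rw [hRS, hksm i (by omega) w hw, ← Function.iterate_succ_apply' (⇑R) i,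
        hkm (i + 1) hm' _ (hφsS i w hw)]
      congr 1
      apply (Ψ (i + 1)).injective
      rw [← hφstep i (by omega), Homeomorph.apply_symm_apply, Homeomorph.apply_symm_apply]
    · left
      have hx' : ∀ m, 1 ≤ m → m ≤ L → x ∉ (⇑R)^[m] '' S := fun m hm hm' hc =>
        hex ⟨m, hm, hm', hc⟩
      rw [hks1 _ (hpre x hx'), R.apply_symm_apply]
      refine hk1 x fun m hm => ?_
      rcases Nat.eq_zero_or_pos m with rfl | h
      · simpa using hx
      · exact hx' m h hm.le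
  · intro x hx
    rw [hks0 x hx]
    have h1 := hφsS 0 x hx
    rw [hk1 _ (hpre _ (hSnot _ h1)), R.apply_symm_apply]
    exact h1
  · intro x hx
    by_cases hex : ∃ m, 1 ≤ m ∧ m ≤ L ∧ x ∈ (⇑R)^[m] '' S
    · obtain ⟨m, hm, hm', w, hw, rfl⟩ := hex
      right
      refine ⟨m, hm, hm', w, hw, rfl, ?_⟩
      obtain ⟨i, rfl⟩ : ∃ i, m = i + 1 := ⟨m - 1, by omega⟩
      rw [hksm (i + 1) hm' w hw, hRS, hkm i (by omega) _ (hφsS (i + 1) w hw),
        ← Function.iterate_succ_apply' (⇑R) i]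
      congr 1
      rw [hφstep i (by omega), Homeomorph.apply_symm_apply]
    · left
      have hx' : ∀ m, 1 ≤ m → m ≤ L → x ∉ (⇑R)^[m] '' S := fun m hm hm' hc =>
        hex ⟨m, hm, hm', hc⟩
      have h1 : k.symm x = x := by
        refine hks1 x fun m hm => ?_
        rcases Nat.eq_zero_or_pos m with rfl | h
        · simpa using hx
        · exact hx' m h hm.le
      rw [h1, hk1 _ (hpre x hx'), R.apply_symm_apply]

end Pool.Agent.MinHomeo
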