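import Pool.Agent.Lib_helper57.MinHomeo.Defs

open Set Metric Topology

namespace Pool.Agent.MinHomeo

variable {X M : Type} [NormedAddCommGroup X] [NormedSpace ℝ X] [MetricSpace M]

theorem thick (C : RotChart X M) : Thick_Stmt C := by
  intro A A' t hA hA' hd
  have hK : IsCompact (C.Φ '' A) := hA.image C.Φ_cont
  have hK' : IsCompact (C.R t '' (C.Φ '' A')) := (hA'.image C.Φ_cont).image (C.R t).continuous
  obtain ⟨U, V, hU, hV, hAU, hAV, hUV⟩ := SeparatedNhds.of_isCompact_isCompact hK hK' hd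
  have hU' : IsOpen (C.Φ ⁻¹' U) := hU.preimage C.Φ_cont
  have hV' : IsOpen ((fun y => C.R t (C.Φ y)) ⁻¹' V) :=
    hV.preimage ((C.R t).continuous.comp C.Φ_cont)
  obtain ⟨r₁, hr₁, h₁⟩ := hA.exists_cthickening_subset_open hU'
    (fun y hy => hAU (mem_image_of_mem _ hy))
  obtain ⟨r₂, hr₂, h₂⟩ := hA'.exists_cthickening_subset_open hV'
    (fun y hy => hAV (mem_image_of_mem _ (mem_image_of_mem _ hy)))
  refine ⟨min r₁ r₂, lt_min hr₁ hr₂, fun r hr hr' => ?_⟩
  refine hUV.mono ?_ ?_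
  · rintro _ ⟨y, hy, rfl⟩
    exact h₁ (cthickening_mono (hr'.trans (min_le_left _ _)) _ hy)
  · rintro _ ⟨_, ⟨y, hy, rfl⟩, rfl⟩
    exact h₂ (cthickening_mono (hr'.trans (min_le_right _ _)) _ hy)

end Pool.Agent.MinHomeo
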