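import Pool.Agent.Lib_helper57.MinHomeo.LemB
import Pool.Agent.Lib_helper57.MinHomeo.Thick

open Set Metric Topology

namespace Pool.Agent.MinHomeo

/-- The assembly of all modules. -/
theorem assembly
    (hStep : Step_Stmt) (hFrozen : Step_Stmt → Frozen_Stmt)
    (hTransport : ∀ {X M : Type} [NormedAddCommGroup X] [NormedSpace ℝ X] [MetricSpace M]
      [FiniteDimensional ℝ X] [CompactSpace M] (C : RotChart X M), Transport_Stmt C)
    (hMove : ∀ {X M : Type} [NormedAddCommGroup X] [NormedSpace ℝ X] [MetricSpace M]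
      [FiniteDimensional ℝ X] [CompactSpace M] (C : RotChart X M),
      Transport_Stmt C → Move_Stmt C)
    (hCurve : ∀ (X : Type) [NormedAddCommGroup X] [NormedSpace ℝ X] [FiniteDimensional ℝ X],
      Curve_Stmt X)
    (hAQ : ∀ {X M : Type} [NormedAddCommGroup X] [NormedSpace ℝ X] [MetricSpace M]
      [FiniteDimensional ℝ X] [CompactSpace M] (C : RotChart X M), Transport_Stmt C → AQ_Stmt C)
    (hHit : ∀ {X M : Type} [NormedAddCommGroup X] [NormedSpace ℝ X] [MetricSpace M]
      [FiniteDimensional ℝ X] [CompactSpace M] (C : RotChart X M), AQ_Stmt C → Curve_Stmt X →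
      Hit_Stmt C)
    (hLemA : ∀ {X M : Type} [NormedAddCommGroup X] [NormedSpace ℝ X] [MetricSpace M]
      [CompactSpace M] (C : RotChart X M), Hit_Stmt C → PropA C.rot)
    (hPath : ∀ {X M : Type} [NormedAddCommGroup X] [NormedSpace ℝ X] [MetricSpace M]
      (C : RotChart X M), Path_Stmt C)
    (hGP : ∀ (X : Type) [NormedAddCommGroup X] [NormedSpace ℝ X] [FiniteDimensional ℝ X],
      1 < Module.finrank ℝ X → GP_Stmt X)
    (hAlg : Alg_Stmt)
    (hChart : ∀ (F : Type) [NormedAddCommGroup F] [InnerProductSpace ℂ F] [FiniteDimensional ℂ F],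
      SphChart_Stmt F)
    (hLast : Last_Stmt) (m : ℕ) (hm : 1 ≤ m) :
    ∃ f : EuclideanSpace ℝ (Fin (2 * m + 1)) ≃ₜ EuclideanSpace ℝ (Fin (2 * m + 1)),
      ∀ x, Dense (range fun k : ℤ => (f ^ k) x) := by
  apply hLast m hm
  set F := EuclideanSpace ℂ (Fin m) with hF
  have : FiniteDimensional ℝ F := FiniteDimensional.complexToReal F
  have : FiniteDimensional ℝ (Amb F) := FiniteDimensional.complexToReal (Amb F)
  have : ProperSpace (Amb F) := FiniteDimensional.proper ℝ (Amb F)
  obtain ⟨C⟩ := hChart F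
  have hFr : Module.finrank ℝ F = 2 * m := by
    rw [finrank_real_of_complex]
    have h0 : Module.finrank ℂ (EuclideanSpace ℂ (Fin m)) = m := finrank_euclideanSpace_fin
    exact congrArg (fun n => 2 * n) h0
  have hAr : 1 < Module.rank ℝ (Amb F) := by
    have h1 : Module.finrank ℝ (Amb F) = 2 + 2 * m := by
      rw [LinearEquiv.finrank_eq (WithLp.linearEquiv 2 ℝ (ℂ × F)), Module.finrank_prod, hFr,
        Complex.finrank_real_complex]
    rw [← Module.finrank_eq_rank, h1]
    exact_mod_cast (by omega : 1 < 2 + 2 * m)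
  have : PreconnectedSpace (Sph F) :=
    isPreconnected_iff_preconnectedSpace.1 (isPreconnected_sphere hAr 0 1)
  have : CompactSpace (Sph F) := isCompact_iff_compactSpace.1 (isCompact_sphere _ _)
  obtain ⟨e⟩ : Nonempty (Sph F) := ⟨C.Φ (0, 0)⟩
  have hT := hTransport C
  obtain ⟨f, hfe, hf⟩ := hFrozen hStep (Sph F) C.rot e C.rot_nonempty C.rot_symm
    (hLemA C (hHit C (hAQ C hT) (hCurve F)))
    (propB C (hMove C hT) (hPath C) (thick C) (hGP F (by rw [hFr]; omega)) hAlg e)
  exact ⟨e, f, hfe, hf⟩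

end Pool.Agent.MinHomeo
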