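import Pool.Agent.Lib_helper57.MinHomeo.Basic

open Set Metric Topology Filter

namespace Pool.Agent.MinHomeo

variable {X M : Type} [NormedAddCommGroup X] [NormedSpace ℝ X] [MetricSpace M]

theorem lemB_unif [CompactSpace M] (C : RotChart X M) (h : M ≃ₜ M) (B : Set (X × ℝ))
    (hB : IsCompact B) (ε : ℝ) (hε : 0 < ε) :
    ∃ δ, 0 < δ ∧ ∀ y ∈ B, ∀ y' ∈ B, dist y y' < δ →
      ∀ t, dist (h (C.R t (C.Φ y))) (h (C.R t (C.Φ y'))) < ε := by
  have huc : UniformContinuous h := CompactSpace.uniformContinuous_of_continuous h.continuous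
  obtain ⟨δ₁, hδ₁, h₁⟩ := Metric.uniformContinuous_iff.1 huc ε hε
  have hΦ : UniformContinuousOn C.Φ B :=
    hB.uniformContinuousOn_of_continuous C.Φ_cont.continuousOn
  obtain ⟨δ, hδ, h₂⟩ := Metric.uniformContinuousOn_iff.1 hΦ δ₁ hδ₁
  refine ⟨δ, hδ, fun y hy y' hy' hd t => h₁ ?_⟩
  rw [C.R_isom]
  exact h₂ y hy y' hy' hd

theorem lemB_eq (C : RotChart X M) {p p' : X × ℝ} {t : ℝ} (h : C.Φ p = C.R t (C.Φ p')) :
    ∃ j : ℤ, p = p' + (0, t + j) := by
  obtain ⟨x, θ⟩ := p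
  obtain ⟨x', θ'⟩ := p'
  rw [C.R_Φ, C.Φ_eq] at h
  obtain ⟨rfl, k, hk⟩ := h
  refine ⟨-k, ?_⟩
  ext
  · simp
  · simp only [Prod.snd_add, Int.cast_neg]
    linarith

theorem lemB_seg {E : Type} [NormedAddCommGroup E] [NormedSpace ℝ E] {u v q q' : E}
    (hq : q ∈ segment ℝ u v) (hq' : q' ∈ segment ℝ u v) : dist q q' ≤ dist u v := by
  have h1 : segment ℝ u v ⊆ closedBall u (dist u v) :=
    (convex_closedBall u _).segment_subset (by simp) (by simp [dist_comm])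
  have h2 : segment ℝ u v ⊆ closedBall v (dist u v) :=
    (convex_closedBall v _).segment_subset (by simp) (by simp)
  have h3 : segment ℝ u v ⊆ closedBall q' (dist u v) :=
    (convex_closedBall q' _).segment_subset
      (by have := h1 hq'; simpa [dist_comm] using this)
      (by have := h2 hq'; simpa [dist_comm] using this)
  exact h3 hq

theorem lemB_small {E : Type} [NormedAddCommGroup E] [NormedSpace ℝ E] {u v p p' : E} {r δ : ℝ}
    (hr : r < δ) (huv : dist u v < δ) (hp : p ∈ thickening r (segment ℝ u v))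
    (hp' : p' ∈ thickening r (segment ℝ u v)) : dist p p' < 3 * δ := by
  rw [mem_thickening_iff] at hp hp'
  obtain ⟨q, hq, h1⟩ := hp
  obtain ⟨q', hq', h2⟩ := hp'
  have h3 := lemB_seg hq hq'
  have h4 := dist_triangle4 p q q' p'
  rw [dist_comm q' p'] at h4
  linarith

theorem lemB_core [FiniteDimensional ℝ X] [CompactSpace M] (C : RotChart X M)
    (hMove : Move_Stmt C) (hPath : Path_Stmt C) (hThick : Thick_Stmt C) (hGP : GP_Stmt X)
    (hAlg : Alg_Stmt) (h : M ≃ₜ M) (α : ℝ) (hα : Irrational α) (O : Set M) (hO : IsOpen O)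
    (hOc : IsPreconnected O) (h0 : C.Φ (0, 0) ∈ h ⁻¹' O) (h1 : C.Φ (0, α) ∈ h ⁻¹' O)
    (N : ℕ) (ε η : ℝ) (hε : 0 < ε) (hη : 0 < η) :
    ∃ (k : M ≃ₜ M) (W V O' : Set M),
      IsClosed W ∧ W ⊆ h ⁻¹' O ∧ IsOpen V ∧ IsPreconnected V ∧ V ⊆ W ∧ C.Φ (0, 0) ∈ V ∧
      C.Φ (0, α) ∈ V ∧
      (∀ m, 2 ≤ m → m ≤ N → Disjoint W ((⇑(C.R α))^[m] '' W)) ∧
      (∀ x, x ∉ W → dist (h (k (C.R α (k.symm ((C.R α).symm x))))) (h x) < ε) ∧
      (∀ x ∈ W, k (C.R α (k.symm ((C.R α).symm x))) ∈ W) ∧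
      (∀ x, x ∉ W → dist (h (k ((C.R α).symm (k.symm x)))) (h ((C.R α).symm x)) < ε) ∧
      (∀ x ∈ W, C.R α (k ((C.R α).symm (k.symm x))) ∈ W) ∧
      IsOpen O' ∧ IsPreconnected O' ∧ C.Φ (0, 0) ∈ O' ∧ k (C.R α (k.symm (C.Φ (0, 0)))) ∈ O' ∧
      O' ⊆ W ∧ ∀ x ∈ O', dist (h x) (h (C.Φ (0, 0))) < η := by
  classical
  obtain ⟨k₀, hjoin⟩ := hPath (h ⁻¹' O) α (hO.preimage h.continuous)
    (h.isPreconnected_preimage.2 hOc) h0 h1
  have irr : ∀ n j : ℤ, n ≠ 0 → (n : ℝ) * α + j ≠ 0 := by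
    intro n j hn he
    have h2 : Irrational ((n : ℝ) * α + j) := (hα.intCast_mul hn).add_intCast j
    rw [he] at h2
    exact not_irrational_zero h2
  set a : ℝ := α + k₀ with ha_def
  have ha : a ≠ 0 := by
    have := irr 1 k₀ one_ne_zero
    simpa using this
  obtain ⟨γ, hγ⟩ := hjoin
  have hcomp : IsCompact (range γ) := isCompact_range γ.continuous
  obtain ⟨ρ, hρ⟩ := hcomp.isBounded.subset_ball 0
  let P : Set (X × ℝ) := C.Φ ⁻¹' (h ⁻¹' O) ∩ ball 0 ρ
  have hPo : IsOpen P := ((hO.preimage h.continuous).preimage C.Φ_cont).inter isOpen_ball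
  have hjoin' : JoinedIn P (0, 0) (0, a) := ⟨γ, fun t => ⟨hγ t, hρ ⟨t, rfl⟩⟩⟩
  let B : Set (X × ℝ) := closedBall 0 ρ
  have hB : IsCompact B := isCompact_closedBall _ _
  have hPB : P ⊆ B := fun y hy => ball_subset_closedBall hy.2
  obtain ⟨δ₁, hδ₁, hu₁⟩ := lemB_unif C h B hB ε hε
  obtain ⟨δ₂, hδ₂, hu₂⟩ := lemB_unif C h B hB η hη
  set δ : ℝ := min δ₁ δ₂ / 3 with hδ_def
  have hδ : 0 < δ := by positivity
  have hδ1 : 3 * δ ≤ δ₁ := by
    have := min_le_left δ₁ δ₂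
    rw [hδ_def]; linarith
  have hδ2 : 3 * δ ≤ δ₂ := by
    have := min_le_right δ₁ δ₂
    rw [hδ_def]; linarith
  obtain ⟨T, y, hT, hy0, hyT, hseg, hdist, hgp1, hgp2, hgp3⟩ :=
    hGP P a (range fun p : ℤ × ℤ => (p.1 : ℝ) * α + p.2) δ hPo (countable_range _) ha hδ hjoin'
  have hΛ : ∀ n j : ℤ, (n : ℝ) * α + j ∈ range fun p : ℤ × ℤ => (p.1 : ℝ) * α + p.2 :=
    fun n j => ⟨(n, j), rfl⟩
  set c : Set (X × ℝ) := ⋃ i ∈ Iio T, segment ℝ (y i) (y (i + 1)) with hc_def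
  set c₂ : Set (X × ℝ) := ⋃ i ∈ Ico 1 T, segment ℝ (y i) (y (i + 1)) with hc₂_def
  have hsc : ∀ i, IsCompact (segment ℝ (y i) (y (i + 1))) := by
    intro i
    rw [segment_eq_image]
    exact isCompact_Icc.image (by fun_prop)
  have hc : IsCompact c := (finite_Iio T).isCompact_biUnion fun i _ => hsc i
  have hc₂ : IsCompact c₂ := (finite_Ico 1 T).isCompact_biUnion fun i _ => hsc i
  have hc₂c : c₂ ⊆ c := by
    apply biUnion_subset_biUnion_left
    intro i hi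
    exact hi.2
  have hcP : c ⊆ P := iUnion₂_subset fun i hi => hseg i hi
  have hy_left : ∀ i, y i ∈ segment ℝ (y i) (y (i + 1)) := fun i => left_mem_segment ℝ _ _
  have hy_right : ∀ i, y (i + 1) ∈ segment ℝ (y i) (y (i + 1)) :=
    fun i => right_mem_segment ℝ _ _
  -- disjointness in `M`
  have D1 : ∀ m : ℕ, 2 ≤ m → Disjoint (C.Φ '' c) (C.R (m * α) '' (C.Φ '' c)) := by
    intro m hm
    rw [Set.disjoint_left]
    rintro _ ⟨p, hp, rfl⟩ ⟨_, ⟨p', hp', rfl⟩, he⟩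
    obtain ⟨j, hj⟩ := lemB_eq C he.symm
    simp only [hc_def, mem_iUnion, mem_Iio, exists_prop] at hp hp'
    obtain ⟨i, hi, hp⟩ := hp
    obtain ⟨i', hi', hp'⟩ := hp'
    refine hgp1 ((m : ℝ) * α + j) (by simpa using hΛ m j) ?_ ?_ ?_ i hi i' hi' p hp p' hp' hj
    · have := irr m j (by omega)
      simpa using this
    · intro h2
      have h3 := irr (m - 1) (j - k₀) (by omega)
      apply h3
      push_cast
      rw [ha_def] at h2
      linarith
    · intro h2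
      have h3 := irr (m + 1) (j + k₀) (by omega)
      apply h3
      push_cast
      rw [ha_def] at h2
      linarith
  have D2 : ∀ m : ℕ, 1 ≤ m → Disjoint (C.Φ '' c) (C.R (m * α) '' (C.Φ '' c₂)) := by
    intro m hm
    rcases Nat.lt_or_ge 1 m with hm' | hm'
    · exact (D1 m hm').mono_right (image_mono (image_mono hc₂c))
    obtain rfl : m = 1 := by omega
    rw [Set.disjoint_left]
    rintro _ ⟨p, hp, rfl⟩ ⟨_, ⟨p', hp', rfl⟩, he⟩
    obtain ⟨j, hj⟩ := lemB_eq C he.symm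
    simp only [hc_def, mem_iUnion, mem_Iio, exists_prop] at hp
    simp only [hc₂_def, mem_iUnion, mem_Ico, exists_prop] at hp'
    obtain ⟨i, hi, hp⟩ := hp
    obtain ⟨i', hi', hp'⟩ := hp'
    by_cases hja : j = k₀
    · refine hgp2 i hi i' hi'.2 hi'.1 p hp p' hp' ?_
      rw [hj, hja, ha_def]
      simp
    refine hgp1 (α + j) (by simpa using hΛ 1 j) ?_ ?_ ?_ i hi i' hi'.2 p hp p' hp'
      (by simpa using hj)
    · have := irr 1 j one_ne_zero
      simpa using this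
    · intro h2
      rw [ha_def] at h2
      apply hja
      have : (j : ℝ) = k₀ := by linarith
      exact_mod_cast this
    · intro h2
      have h3 := irr 2 (j + k₀) two_ne_zero
      apply h3
      push_cast
      rw [ha_def] at h2
      linarith
  have D3 : Disjoint (C.Φ '' {((0 : X), (0 : ℝ))}) (C.R 0 '' (C.Φ '' c₂)) := by
    rw [Set.disjoint_left]
    rintro _ ⟨p, rfl, rfl⟩ ⟨_, ⟨p', hp', rfl⟩, he⟩
    obtain ⟨j, hj⟩ := lemB_eq C he.symm
    simp only [hc₂_def, mem_iUnion, mem_Ico, exists_prop] at hp'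
    obtain ⟨i', hi', hp'⟩ := hp'
    by_cases hj0 : j = 0
    · subst hj0
      have : p' = ((0 : X), (0 : ℝ)) := by
        rw [hj]
        ext <;> simp
      rw [this] at hp'
      exact hgp3 i' hi'.2 hi'.1 hp'
    have hy00 : ((0 : X), (0 : ℝ)) ∈ segment ℝ (y 0) (y (0 + 1)) := by
      rw [← hy0]; exact hy_left 0
    refine hgp1 j (by simpa using hΛ 0 j) (by exact_mod_cast hj0) ?_ ?_ 0 (by omega) i' hi'.2
      _ hy00 p' hp' (by simpa using hj)
    · intro h2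
      have h3 := irr 1 (k₀ - j) one_ne_zero
      apply h3
      push_cast
      rw [ha_def] at h2
      linarith
    · intro h2
      have h3 := irr 1 (k₀ + j) one_ne_zero
      apply h3
      push_cast
      rw [ha_def] at h2
      linarith
  -- choice of `r`
  have hev : ∀ (A A' : Set (X × ℝ)) (t : ℝ), IsCompact A → IsCompact A' →
      Disjoint (C.Φ '' A) (C.R t '' (C.Φ '' A')) →
      ∀ᶠ r in 𝓝[>] (0 : ℝ),
        Disjoint (C.Φ '' (cthickening r A)) (C.R t '' (C.Φ '' (cthickening r A'))) := by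
    intro A A' t hA hA' hd
    obtain ⟨r₀, hr₀, hr⟩ := hThick A A' t hA hA' hd
    filter_upwards [Ioc_mem_nhdsGT hr₀] with r hr'
    exact hr r hr'.1 hr'.2
  have E1 : ∀ᶠ r in 𝓝[>] (0 : ℝ), ∀ m ∈ Finset.Icc 2 N,
      Disjoint (C.Φ '' (cthickening r c)) (C.R (m * α) '' (C.Φ '' (cthickening r c))) := by
    rw [eventually_all_finset]
    intro m hm
    exact hev _ _ _ hc hc (D1 m (Finset.mem_Icc.1 hm).1)
  have E2 : ∀ᶠ r in 𝓝[>] (0 : ℝ), ∀ m ∈ Finset.Icc 1 T,
      Disjoint (C.Φ '' (cthickening r c)) (C.R (m * α) '' (C.Φ '' (cthickening r c₂))) := by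
    rw [eventually_all_finset]
    intro m hm
    exact hev _ _ _ hc hc₂ (D2 m (Finset.mem_Icc.1 hm).1)
  have E3 := hev _ _ _ isCompact_singleton hc₂ D3
  have E4 : ∀ᶠ r in 𝓝[>] (0 : ℝ), cthickening r c ⊆ P := by
    obtain ⟨r₀, hr₀, hr⟩ := hc.exists_cthickening_subset_open hPo hcP
    filter_upwards [Ioc_mem_nhdsGT hr₀] with r hr'
    exact (cthickening_mono hr'.2 _).trans hr
  have E5 : ∀ᶠ r in 𝓝[>] (0 : ℝ), r ∈ Ioo 0 δ := Ioo_mem_nhdsGT hδ
  obtain ⟨r, hr1, hr2, hr3, hr4, hr0, hrδ⟩ := (E1.and (E2.and (E3.and (E4.and E5)))).exists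
  -- the pieces
  set S' : ℕ → Set (X × ℝ) := fun g => thickening r (segment ℝ (y g) (y (g + 1))) with hS'
  set S : Set M := C.Φ '' (⋃ g ∈ Ico 1 T, S' g) with hS
  set W : Set M := C.Φ '' (cthickening r c) with hW
  have hS'o : ∀ g, IsOpen (S' g) := fun g => isOpen_thickening
  have hS'c : ∀ g, IsPreconnected (S' g) := fun g =>
    ((convex_segment (y g) (y (g + 1))).thickening r).isPreconnected
  have hself : ∀ g, segment ℝ (y g) (y (g + 1)) ⊆ S' g := fun g => self_subset_thickening hr0 _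
  have hS'sub : ∀ g < T, S' g ⊆ cthickening r c := by
    intro g hg
    refine (thickening_subset_cthickening _ _).trans (cthickening_subset_of_subset _ ?_)
    exact subset_biUnion_of_mem (u := fun i => segment ℝ (y i) (y (i + 1))) (mem_Iio.2 hg)
  have hS'sub₂ : ∀ g, 1 ≤ g → g < T → S' g ⊆ cthickening r c₂ := by
    intro g hg1 hg
    refine (thickening_subset_cthickening _ _).trans (cthickening_subset_of_subset _ ?_)
    exact subset_biUnion_of_mem (u := fun i => segment ℝ (y i) (y (i + 1))) (mem_Ico.2 ⟨hg1, hg⟩)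
  have hSc₂ : S ⊆ C.Φ '' (cthickening r c₂) :=
    image_mono (iUnion₂_subset fun g hg => hS'sub₂ g hg.1 hg.2)
  have hSW : S ⊆ W := image_mono (iUnion₂_subset fun g hg => hS'sub g hg.2)
  have hS'B : ∀ g < T, S' g ⊆ B := fun g hg => ((hS'sub g hg).trans hr4).trans hPB
  have himg : ∀ (m : ℕ) (A : Set M), (⇑(C.R α))^[m] '' A = C.R (m * α) '' A := by
    intro m A
    have : (⇑(C.R α))^[m] = C.R (m * α) := funext (C.R_iter α m)
    rw [this]
  have hWS : ∀ m, 1 ≤ m → m ≤ T → Disjoint W ((⇑(C.R α))^[m] '' S) := by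
    intro m hm hm'
    rw [himg]
    exact (hr2 m (Finset.mem_Icc.2 ⟨hm, hm'⟩)).mono_right (image_mono hSc₂)
  have hΨ : ∀ g, ∃ Ψ : M ≃ₜ M, (1 ≤ g → g < T → Ψ (C.Φ (y (g + 1))) = C.Φ (y g) ∧
      ∀ x, x ∉ C.Φ '' (S' g) → Ψ x = x) ∧ ∀ x, x ∉ S → Ψ x = x := by
    intro g
    by_cases hg : 1 ≤ g ∧ g < T
    · obtain ⟨Ψ, h1, h2⟩ := hMove (C.Φ '' (S' g)) (C.Φ_open _ (hS'o g))
        ((hS'c g).image _ C.Φ_cont.continuousOn) (image_subset_range _ _)
        (C.Φ (y (g + 1))) (mem_image_of_mem _ (hself g (hy_right g)))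
        (C.Φ (y g)) (mem_image_of_mem _ (hself g (hy_left g)))
      refine ⟨Ψ, fun _ _ => ⟨h1, h2⟩, fun x hx => h2 x fun hx' => hx ?_⟩
      obtain ⟨p, hp, rfl⟩ := hx'
      exact ⟨p, mem_biUnion (show g ∈ Ico 1 T from hg) hp, rfl⟩
    · exact ⟨Homeomorph.refl M, fun h1 h2 => absurd ⟨h1, h2⟩ hg, fun x _ => rfl⟩
  choose Ψ hΨ1 hΨ2 using hΨ
  obtain ⟨k, hk1, hk2, hk3, hk4, hk5, hk6⟩ := hAlg M (C.R α) (T - 1) S Ψ
    (fun m hm hm' => (hWS m hm (by omega)).mono_left hSW) (fun g x hx => hΨ2 g x hx)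
  have hΦ0W : C.Φ (0, 0) ∈ W := by
    refine mem_image_of_mem _ (hS'sub 0 (by omega) (hself 0 ?_))
    rw [← hy0]; exact hy_left 0
  have hk0 : k (C.Φ (0, 0)) = C.Φ (0, 0) := by
    refine hk1 _ fun m hm hmem => ?_
    rcases Nat.eq_zero_or_pos m with rfl | hm0
    · simp only [Function.iterate_zero, image_id] at hmem
      refine Set.disjoint_left.1 hr3 (mem_image_of_mem _ (self_subset_cthickening _ rfl)) ?_
      exact ⟨C.Φ (0, 0), hSc₂ hmem, C.R_zero _⟩
    · exact Set.disjoint_left.1 (hWS m hm0 (by omega)) hΦ0W hmem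
  have hyT' : y (T - 1 + 1) = (0, a) := by
    rw [← hyT]; congr 1; omega
  have hΦa : C.Φ (0, α) = C.Φ (y (T - 1 + 1)) := by
    rw [hyT', ha_def, C.Φ_int]
  have hyTS : C.Φ (y (T - 1 + 1)) ∈ S := by
    refine mem_image_of_mem _ (mem_biUnion (show T - 1 ∈ Ico 1 T from ⟨by omega, by omega⟩) ?_)
    exact hself _ (hy_right _)
  have hk2' : k (C.Φ (y (T - 1 + 1))) = C.Φ (y 1) :=
    hk2 (fun g => C.Φ (y g)) (fun g hg hg' => (hΨ1 g hg (by omega)).1) hyTS
  -- small motions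
  have hsmall : ∀ m, 1 ≤ m → m < T → ∀ w ∈ S, ∀ w', (w' = Ψ m w ∨ w' = (Ψ m).symm w) →
      ∀ t, dist (h (C.R t w')) (h (C.R t w)) < ε := by
    intro m hm hm' w hw w' hw' t
    have hsupp := (hΨ1 m hm hm').2
    by_cases hwm : w ∈ C.Φ '' (S' m)
    · have hw'm : w' ∈ C.Φ '' (S' m) := by
        by_contra hcon
        have h2 := hsupp w' hcon
        rcases hw' with rfl | rfl
        · have h3 := (Ψ m).injective h2
          rw [h3] at hcon
          exact hcon hwm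
        · rw [(Ψ m).apply_symm_apply] at h2
          rw [← h2] at hcon
          exact hcon hwm
      obtain ⟨p, hp, rfl⟩ := hwm
      obtain ⟨p', hp', rfl⟩ := hw'm
      refine hu₁ p' (hS'B m hm' hp') p (hS'B m hm' hp) ?_ t
      exact (lemB_small hrδ (hdist m hm') hp' hp).trans_le hδ1
    · have h2 := hsupp w hwm
      have h3 : w' = w := by
        rcases hw' with rfl | rfl
        · exact h2
        · rw [Homeomorph.symm_apply_eq]; exact h2.symm
      rw [h3, dist_self]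
      exact hε
  set V : Set M := C.Φ '' (⋃ g ∈ Iio T, S' g) with hV
  refine ⟨k, W, V, C.Φ '' (S' 0), ?_, ?_, ?_, ?_, ?_, ?_, ?_, ?_, ?_, ?_, ?_, ?_, ?_, ?_, ?_, ?_,
    ?_, ?_⟩
  · exact ((hc.cthickening (r := r)).image C.Φ_cont).isClosed
  · rintro _ ⟨p, hp, rfl⟩
    exact (hr4 hp).1
  · exact C.Φ_open _ (isOpen_biUnion fun g _ => hS'o g)
  · refine IsPreconnected.image ?_ _ C.Φ_cont.continuousOn
    refine IsPreconnected.biUnion_of_chain ordConnected_Iio (fun g _ => hS'c g) ?_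
    intro g _ _
    exact ⟨y (g + 1), hself g (hy_right g), hself (g + 1) (hy_left (g + 1))⟩
  · exact image_mono (iUnion₂_subset fun g hg => hS'sub g hg)
  · refine mem_image_of_mem _ (mem_biUnion (show 0 ∈ Iio T from ?_) (hself 0 ?_))
    · exact mem_Iio.2 (by omega)
    · rw [← hy0]; exact hy_left 0
  · rw [hΦa]
    refine mem_image_of_mem _ (mem_biUnion (show T - 1 ∈ Iio T from ?_) (hself _ (hy_right _)))
    exact mem_Iio.2 (by omega)
  · intro m hm hm'
    rw [himg]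
    exact hr1 m (Finset.mem_Icc.2 ⟨hm, hm'⟩)
  · intro x hx
    rcases hk4 x (fun h' => hx (hSW h')) with h2 | ⟨m, hm, hm', w, hw, hxw, h2⟩
    · rw [h2, dist_self]; exact hε
    · rw [h2, hxw, C.R_iter, C.R_iter]
      exact hsmall m hm (by omega) w hw _ (Or.inr rfl) _
  · intro x hx
    by_cases hxS : x ∈ S
    · exact hSW (hk3 x hxS)
    rcases hk4 x hxS with h2 | ⟨m, hm, hm', w, hw, hxw, h2⟩
    · rw [h2]; exact hx
    · exact absurd ⟨w, hw, hxw.symm⟩ (Set.disjoint_left.1 (hWS m hm (by omega)) hx)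
  · intro x hx
    rcases hk6 x (fun h' => hx (hSW h')) with h2 | ⟨m, hm, hm', w, hw, hxw, h2⟩
    · have h3 : k ((C.R α).symm (k.symm x)) = (C.R α).symm x := by
        rw [Homeomorph.eq_symm_apply]; exact h2
      rw [h3, dist_self]; exact hε
    · have h3 : k ((C.R α).symm (k.symm x)) = C.R (m * α - α) (Ψ m w) := by
        apply (C.R α).injective
        rw [h2, C.R_iter, ← C.R_add]
        congr 2
        ring
      have h4 : (C.R α).symm x = C.R (m * α - α) w := by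
        rw [hxw, C.R_iter, C.R_symm, ← C.R_add]
        congr 2
        ring
      rw [h3, h4]
      exact hsmall m hm (by omega) w hw _ (Or.inl rfl) _
  · intro x hx
    by_cases hxS : x ∈ S
    · exact hSW (hk5 x hxS)
    rcases hk6 x hxS with h2 | ⟨m, hm, hm', w, hw, hxw, h2⟩
    · rw [h2]; exact hx
    · exact absurd ⟨w, hw, hxw.symm⟩ (Set.disjoint_left.1 (hWS m hm (by omega)) hx)
  · exact C.Φ_open _ (hS'o 0)
  · exact (hS'c 0).image _ C.Φ_cont.continuousOn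
  · refine mem_image_of_mem _ (hself 0 ?_)
    rw [← hy0]; exact hy_left 0
  · have h2 : k.symm (C.Φ (0, 0)) = C.Φ (0, 0) := by
      rw [Homeomorph.symm_apply_eq]; exact hk0.symm
    have h3 : C.R α (C.Φ (0, 0)) = C.Φ (y (T - 1 + 1)) := by
      rw [C.R_Φ, zero_add, hΦa]
    rw [h2, h3, hk2']
    exact mem_image_of_mem _ (hself 0 (hy_right 0))
  · exact image_mono (hS'sub 0 (by omega))
  · rintro _ ⟨p, hp, rfl⟩
    have hz : ((0 : X), (0 : ℝ)) ∈ S' 0 := by
      refine hself 0 ?_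
      rw [← hy0]; exact hy_left 0
    have h2 := hu₂ p (hS'B 0 (by omega) hp) (0, 0) (hS'B 0 (by omega) hz)
      ((lemB_small hrδ (hdist 0 (by omega)) hp hz).trans_le hδ2) 0
    simpa only [C.R_zero] using h2

theorem propB [FiniteDimensional ℝ X] [CompactSpace M] (C : RotChart X M)
    (hMove : Move_Stmt C) (hPath : Path_Stmt C) (hThick : Thick_Stmt C) (hGP : GP_Stmt X)
    (hAlg : Alg_Stmt) (e : M) : PropB C.rot e := by
  rintro f ⟨h₀, α, hα, hf₀⟩ O hO hOc heO hfeO N ε η hε hη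
  obtain ⟨u, hu, hu0⟩ := C.trans (h₀.symm e)
  set h : M ≃ₜ M := u.trans h₀ with hh
  have hf : ∀ x, f x = h (C.R α (h.symm x)) := by
    intro x
    rw [hf₀, hh]
    simp only [Homeomorph.symm_trans_apply, Homeomorph.trans_apply]
    rw [hu, u.apply_symm_apply]
  have hfs : ∀ x, f.symm x = h ((C.R α).symm (h.symm x)) := by
    intro x
    rw [Homeomorph.symm_apply_eq, hf]
    simp
  have he : h (C.Φ (0, 0)) = e := by
    rw [hh, Homeomorph.trans_apply, hu0, h₀.apply_symm_apply]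
  have hes : h.symm e = C.Φ (0, 0) := by rw [← he, h.symm_apply_apply]
  have hfe : f e = h (C.Φ (0, α)) := by
    rw [hf, hes, C.R_Φ, zero_add]
  obtain ⟨k, W, V, O', hW, hWO, hVo, hVc, hVW, h0V, h1V, hdis, hf1, hf2, hf3, hf4, hO'o, hO'c,
    h0O', h1O', hO'W, hO'η⟩ := lemB_core C hMove hPath hThick hGP hAlg h α hα O hO hOc
      (by rw [mem_preimage, he]; exact heO) (by rw [mem_preimage, ← hfe]; exact hfeO)
      N ε η hε hη
  set f' : M ≃ₜ M := ((h.symm.trans k.symm).trans (C.R α)).trans (k.trans h) with hf'_def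
  have hf' : ∀ x, f' x = h (k (C.R α (k.symm (h.symm x)))) := fun x => rfl
  have hf's : ∀ x, f'.symm x = h (k ((C.R α).symm (k.symm (h.symm x)))) := fun x => rfl
  have hiter : ∀ (m : ℕ) (x : M), (⇑f)^[m] (h x) = h ((⇑(C.R α))^[m] x) := by
    intro m
    induction m with
    | zero => intro x; rfl
    | succ n ih =>
      intro x
      rw [Function.iterate_succ_apply, Function.iterate_succ_apply, ← ih]
      congr 1
      rw [hf, h.symm_apply_apply]
  refine ⟨f', ⟨k.trans h, α, hα, fun x => rfl⟩, h '' W, h '' V, h '' O', ?_, ?_, ?_, ?_, ?_, ?_,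
    ?_, ?_, ?_, ?_, ?_, ?_, ?_, ?_, ?_, ?_, ?_, ?_⟩
  · exact h.isClosed_image.2 hW
  · rintro _ ⟨x, hx, rfl⟩
    exact hWO hx
  · exact h.isOpen_image.2 hVo
  · exact hVc.image _ h.continuous.continuousOn
  · exact image_mono hVW
  · exact ⟨_, h0V, he⟩
  · exact ⟨_, h1V, hfe.symm⟩
  · intro m hm hm'
    rw [Set.disjoint_left]
    rintro _ ⟨x, hx, rfl⟩ ⟨_, ⟨x', hx', rfl⟩, hxx'⟩
    rw [hiter] at hxx'
    exact Set.disjoint_left.1 (hdis m hm hm') hx ⟨x', hx', h.injective hxx'⟩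
  · intro x hx
    rw [hf] at hx
    have h2 := hf1 (C.R α (h.symm x)) (fun hc => hx (mem_image_of_mem _ hc))
    rw [(C.R α).symm_apply_apply] at h2
    rw [hf', hf]
    exact h2
  · intro x hx
    rw [hf] at hx
    obtain ⟨z, hz, hzx⟩ := hx
    have hz' : C.R α (h.symm x) ∈ W := by rw [← h.injective hzx]; exact hz
    have h2 := hf2 _ hz'
    rw [(C.R α).symm_apply_apply] at h2
    rw [hf']
    exact mem_image_of_mem _ h2
  · intro x hx
    have h2 := hf3 (h.symm x) (fun hc => hx ⟨_, hc, h.apply_symm_apply x⟩)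
    rw [hf's, hfs]
    exact h2
  · rintro _ ⟨x, hx, rfl⟩
    have h2 := hf4 x hx
    rw [hf, hf's, h.symm_apply_apply, h.symm_apply_apply]
    exact mem_image_of_mem _ h2
  · exact h.isOpen_image.2 hO'o
  · exact hO'c.image _ h.continuous.continuousOn
  · exact ⟨_, h0O', he⟩
  · rw [hf', hes]
    exact mem_image_of_mem _ h1O'
  · exact image_mono hO'W
  · rintro _ ⟨x, hx, rfl⟩
    rw [mem_ball, ← he]
    exact hO'η x hx

end Pool.Agent.MinHomeo
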